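import Mathlib
import Pool.Agent.Q105.TwBall
import Pool.Agent.Q105.Twisted

/-!
# Generating-set independence of the degree of twisted commutativity
-/

namespace Pool.Agent.Results.MP_d54b08_al.TdcIndependent

open Pool.Agent.Q105.TwBall Pool.Agent.Q105.Tw Filter Topology

/-- For a virtually abelian group and any endomorphism, the ratios defining the degree of twisted
commutativity converge for every finite generating set, and the limit is the same for all finite
generating sets. -/
theorem result (G : Type*) [Group G]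
    (hG : ∃ A : Subgroup G, A.FiniteIndex ∧ ∀ x ∈ A, ∀ y ∈ A, x * y = y * x) (φ : G →* G) :
    (∀ X Y : Set G, X.Finite → Y.Finite → Subgroup.closure X = ⊤ → Subgroup.closure Y = ⊤ →
      tdc φ X = tdc φ Y) ∧
    (∀ X : Set G, X.Finite → Subgroup.closure X = ⊤ →
      Tendsto (fun n : ℕ =>
        (({p : G × G | p.1 ∈ Ball X n ∧ p.2 ∈ Ball X n ∧
          p.1 * p.2 = p.2 * φ p.1}.ncard : ℕ) : ℝ) / ((Ball X n).ncard : ℝ) ^ 2)
        atTop (𝓝 (tdc φ X))) := by
  obtain ⟨A, hA, hcomm⟩ := hG
  obtain ⟨L, hL⟩ := exists_tdc_limit φ A hA.index_ne_zero hcomm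
  refine ⟨fun X Y hX hY hgX hgY => ?_, fun X hX hgX => ?_⟩
  · rw [tdc_eq_of_dens φ X L (hL X hX hgX), tdc_eq_of_dens φ Y L (hL Y hY hgY)]
  · rw [tdc_eq_of_dens φ X L (hL X hX hgX)]
    refine (hL X hX hgX).congr fun n => ?_
    rw [solution_set, ball_sq]

end Pool.Agent.Results.MP_d54b08_al.TdcIndependent
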